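import Mathlib
import Pool.Agent.Y827.ST.Step

/-!
# One half of the multiples of a highly divisible number are lengths of blocks of `s + 1` consecutive primes

Q1 asks whether `6 = r - p` for infinitely many triples of consecutive primes `p < q < r`. Here: let `s ≥ 1`
(triples: `s = 2`), `q ≥ 1`, `a` coprime to `q` and `ε > 0`. There is `M` such that for EVERY multiple `N` of `M`,
in every sufficiently long window at least a proportion `1/2 - ε` of the `k` are such that for `h = N k` there is a
set `B` of `s + 1` multiples of `q` with `0, h ∈ B ⊆ [0, h]` such that for every `l` there are `C` and arbitrarily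
large `x` for which a difference `1 ≤ D ≤ (log x) ^ C` exists with: for at least `x / (log x) ^ C` integers `n ≤ x`
each of the `l` numbers `m = n, n + D, ..., n + (l-1) D` is `≡ a (mod q)`, and the primes in `[m, m + h]` are exactly
the `s + 1` numbers `m + b`, `b ∈ B`.

Proof: in the coloured Maynard-Tao theorem with the constant `18 / 5` (`Pool.Agent.Y827.RO.blockE`: one exact set
of prime forms, all other integers of the block composite) four classes of shifts, separated in the order of the
integers, are divided into `m > 36 s` subclasses each. More than `10 m / 9` subclasses contain primes, so at least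
two of the classes contain at least `s` primes. Let `x` be the last prime of the first of them: the `s`-th prime
after it belongs to another class. Then helper142's and helper25's theorem on sets which meet the differences of
any four classes (`Pool.Agent.W25.TF.tf4`).
-/

set_option autoImplicit false

namespace Pool.Agent.Results.MP_dddec0_nt.ConsecutiveSteps

open Filter Finset

open Classical in
/-- the number of `1 ≤ n ≤ x` such that each of the `l` numbers `m = n, n + D, ..., n + (l - 1) D` is `≡ a` modulo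
`q` and the primes in `[m, m + h]` are exactly the numbers `m + b`, `b ∈ B` -/
noncomputable def blocks (q a : ℕ) (B : Finset ℕ) (h l D x : ℕ) : ℕ :=
  ((Icc 1 x).filter (fun n : ℕ => ∀ j < l, n + j * D ≡ a [MOD q] ∧
    ∀ t ≤ h, ((n + j * D + t).Prime ↔ t ∈ B))).card

/-- `h` is the length of many blocks of `s + 1` consecutive primes with one pattern `B`, all `≡ a` modulo `q`,
along progressions of any length with small difference -/
def Good (s q a h : ℕ) : Prop :=
  ∃ B : Finset ℕ, B.card = s + 1 ∧ 0 ∈ B ∧ h ∈ B ∧ (∀ b ∈ B, b ≤ h ∧ q ∣ b) ∧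
    ∀ l : ℕ, ∃ C : ℕ, ∃ᶠ x : ℕ in atTop, ∃ D : ℕ, 1 ≤ D ∧
      (D : ℝ) ≤ (Real.log x) ^ C ∧ (x : ℝ) / (Real.log x) ^ C ≤ (blocks q a B h l D x : ℝ)

theorem result (s : ℕ) (hs : 1 ≤ s) (q a : ℕ) (hq : 0 < q) (ha : a.Coprime q) (ε : ℝ) (hε : 0 < ε) :
    ∃ M : ℕ, 0 < M ∧ ∀ N : ℕ, 0 < N → M ∣ N → ∃ L : ℕ, ∀ T : ℕ, L ≤ T → ∀ u : ℕ,
      (1 / 2 - ε) * (T : ℝ) ≤ ({k : ℕ | u < k ∧ k ≤ u + T ∧ Good s q a (N * k)}.ncard : ℝ) := by
  classical
  obtain ⟨M, hM, h⟩ := Pool.Agent.Y827.ST.stepWin s hs q a hq ha ε hε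
  refine ⟨M, hM, fun N hN hd => ?_⟩
  obtain ⟨L, hL⟩ := h N hN hd
  refine ⟨L, fun T hT u => (hL T hT u).trans ?_⟩
  rw [Nat.cast_le]
  apply Set.ncard_le_ncard
  · rintro k ⟨h1, h2, B, h3, h4, h5, h6, h7, h8⟩
    refine ⟨h1, h2, B, h7, h3, h4, fun b hb => ⟨h5 b hb, h6 b hb⟩, fun l => ?_⟩
    obtain ⟨C, hC⟩ := h8 l
    refine ⟨C, hC.mono ?_⟩
    rintro x ⟨D, g1, g2, g3⟩
    refine ⟨D, g1, g2, g3.trans (le_of_eq ?_)⟩
    unfold blocks
    congr!
  · exact (Set.finite_Icc 0 (u + T)).subset fun k hk => ⟨Nat.zero_le _, hk.2.1⟩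

end Pool.Agent.Results.MP_dddec0_nt.ConsecutiveSteps
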