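import Pool.Agent.Y677.RSZ.FinPow
import Pool.Agent.TH977.PW.Prog

set_option autoImplicit false

/-!
# Narrow arithmetic progressions of prime triplets and almost prime triplets

Let `R r` be the set of the `n` for which `n`, `n + 6` and one of `n + 2`, `n + 4` have only prime factors
larger than `n ^ (1 / r)`. It contains the set `T` of the problem. Let `A` be an ARBITRARY subset of
`R r`, for example `T` itself. In every short interval all but a small proportion of the expected number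
of elements of `A` are terms of `l`-term arithmetic progressions inside `A` with difference at most
`(log X) ^ B`.
-/

namespace Pool.Agent.Results.MP_dddec0_nt.NarrowProgressions

open Finset Filter
open Pool.Agent.TH977.PW (N N_mono)
open Pool.Agent.Y677.RSZ (InProg Outside)

/-- All prime factors of `n`, `n + s` and `n + 6` are larger than `n ^ (1 / r)`. -/
def RS (s r : ℕ) : Set ℕ :=
  {n | ∀ h ∈ ({0, s, 6} : Finset ℕ), ∀ p : ℕ, p.Prime → p ∣ n + h →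
    (n : ℝ) ^ (1 / (r : ℝ)) < (p : ℝ)}

/-- All prime factors of `n`, `n + 6` and one of `n + 2`, `n + 4` are larger than `n ^ (1 / r)`. -/
def R (r : ℕ) : Set ℕ := {n | n ∈ RS 2 r ∨ n ∈ RS 4 r}

/-- Moreover these three numbers have at most `r` prime factors. -/
def PS (s r : ℕ) : Set ℕ :=
  {n | n ∈ RS s r ∧ ∀ h ∈ ({0, s, 6} : Finset ℕ), (n + h).primeFactorsList.length ≤ r}

/-- no local obstruction -/
lemma adm (s : ℕ) (hs : s = 2 ∨ s = 4) (p : ℕ) (hp : p.Prime) :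
    ∃ m : ℕ, ∀ h ∈ ({0, s, 6} : Finset ℕ), ¬ p ∣ m + h := by
  rcases hs with rfl | rfl
  · rcases lt_or_ge p 12 with h30 | h30
    · refine ⟨17, fun h hh hd => ?_⟩
      simp only [mem_insert, mem_singleton] at hh
      have := (Nat.prime_dvd_prime_iff_eq hp
        (by rcases hh with rfl | rfl | rfl <;> norm_num)).1 hd
      omega
    · refine ⟨5, fun h hh hd => ?_⟩
      simp only [mem_insert, mem_singleton] at hh
      have := Nat.le_of_dvd (by omega) hd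
      omega
  · rcases lt_or_ge p 14 with h30 | h30
    · refine ⟨37, fun h hh hd => ?_⟩
      simp only [mem_insert, mem_singleton] at hh
      have := (Nat.prime_dvd_prime_iff_eq hp
        (by rcases hh with rfl | rfl | rfl <;> norm_num)).1 hd
      omega
    · refine ⟨7, fun h hh hd => ?_⟩
      simp only [mem_insert, mem_singleton] at hh
      have := Nat.le_of_dvd (by omega) hd
      omega

/-- one shape -/
lemma one (s : ℕ) (hs : s = 2 ∨ s = 4) (θ : ℝ) (hθ : 0 < θ) (hθ1 : θ ≤ 1) :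
    ∃ r0 : ℕ, 2 ≤ r0 ∧ ∀ r : ℕ, r0 ≤ r →
    (∃ κ : ℝ, 0 < κ ∧ ∀ᶠ X : ℕ in atTop, ∀ Y : ℕ, (X : ℝ) ^ θ ≤ Y → Y ≤ X →
      κ * Y / Real.log X ^ 3 ≤ N (PS s r) X (X + Y)) ∧
    ∀ l : ℕ, 2 ≤ l → ∀ ε : ℝ, 0 < ε → ∃ B : ℕ, ∀ᶠ X : ℕ in atTop, ∀ Y : ℕ,
      (X : ℝ) ^ θ ≤ Y → Y ≤ X → ∀ A : Set ℕ, A ⊆ RS s r →
        (N (Outside A l (Real.log X ^ B) X (X + Y)) X (X + Y) : ℝ) ≤ ε * Y / Real.log X ^ 3 :=
  Pool.Agent.Y677.RSZ.narrow_prog {0, s, 6} ⟨0, by simp⟩ 1 0 one_pos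
    (fun h _ => Nat.coprime_one_right _) (adm s hs) (RS s) (PS s) 3
    (by rcases hs with rfl | rfl <;> rfl)
    (fun r m _ hm => hm)
    (fun r _ => Eventually.of_forall (fun m _ h1 h2 => ⟨h1, h2⟩)) θ hθ hθ1

open Classical in
lemma N_union (A A₁ A₂ : Set ℕ) (a b : ℕ) (h : ∀ m ∈ A, m ∈ A₁ ∨ m ∈ A₂) :
    N A a b ≤ N A₁ a b + N A₂ a b := by
  unfold N
  refine le_trans (card_le_card ?_) (card_union_le _ _)
  intro m hm
  rw [mem_filter] at hm
  rw [mem_union, mem_filter, mem_filter]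
  rcases h m hm.2 with h1 | h1
  · exact Or.inl ⟨hm.1, h1⟩
  · exact Or.inr ⟨hm.1, h1⟩

/-- **Narrow progressions of prime triplets and almost prime triplets.** -/
theorem result (θ : ℝ) (hθ : 0 < θ) (hθ1 : θ ≤ 1) :
    ∃ r₀ : ℕ, 2 ≤ r₀ ∧ ∀ r : ℕ, r₀ ≤ r →
      (∀ p : ℕ, p.Prime → (p + 6).Prime → ((p + 2).Prime ∨ (p + 4).Prime) → p ∈ R r) ∧
      (∀ s : ℕ, s = 2 ∨ s = 4 → ∃ κ : ℝ, 0 < κ ∧ ∀ᶠ X : ℕ in atTop, ∀ Y : ℕ,
        (X : ℝ) ^ θ ≤ Y → Y ≤ X → κ * Y / Real.log X ^ 3 ≤ N (PS s r) X (X + Y)) ∧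
      (∀ l : ℕ, 2 ≤ l → ∀ ε : ℝ, 0 < ε → ∃ B : ℕ, ∀ᶠ X : ℕ in atTop, ∀ Y : ℕ,
        (X : ℝ) ^ θ ≤ Y → Y ≤ X → ∀ A : Set ℕ, A ⊆ R r →
          (N (Outside A l (Real.log X ^ B) X (X + Y)) X (X + Y) : ℝ) ≤ ε * Y / Real.log X ^ 3) ∧
      ∀ s : ℕ, s = 2 ∨ s = 4 → ∀ l : ℕ, ∃ B : ℕ, ∀ᶠ X : ℕ in atTop, ∀ Y : ℕ,
        (X : ℝ) ^ θ ≤ Y → Y ≤ X → ∃ u d : ℕ, 1 ≤ d ∧ (d : ℝ) ≤ Real.log X ^ B ∧
          ∀ i < l, u + i * d ∈ PS s r ∧ X < u + i * d ∧ u + i * d ≤ X + Y := by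
  obtain ⟨r1, hr1, h1⟩ := one 2 (Or.inl rfl) θ hθ hθ1
  obtain ⟨r2, hr2, h2⟩ := one 4 (Or.inr rfl) θ hθ hθ1
  refine ⟨max r1 r2, hr1.trans (le_max_left _ _), fun r hr => ?_⟩
  have k1 := h1 r ((le_max_left _ _).trans hr)
  have k2 := h2 r ((le_max_right _ _).trans hr)
  have h2r : 2 ≤ r := hr1.trans ((le_max_left _ _).trans hr)
  refine ⟨?_, ?_, ?_, ?_⟩
  · intro p hp hp6 h24
    have hm : ∀ s, (p + s).Prime → p ∈ RS s r := by
      intro s hps h hh q hq hdv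
      simp only [mem_insert, mem_singleton] at hh
      rcases hh with rfl | rfl | rfl
      · exact Pool.Agent.TH977.PW.rpow_lt_dvd r p q h2r hp hq (by simpa using hdv)
      · rw [(Nat.prime_dvd_prime_iff_eq hq hps).1 hdv]
        exact Pool.Agent.TH977.PW.rpow_lt_of_le r p _ h2r hp.two_le (by omega)
      · rw [(Nat.prime_dvd_prime_iff_eq hq hp6).1 hdv]
        exact Pool.Agent.TH977.PW.rpow_lt_of_le r p _ h2r hp.two_le (by omega)
    rcases h24 with h | h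
    · exact Or.inl (hm 2 h)
    · exact Or.inr (hm 4 h)
  · rintro s (rfl | rfl)
    · exact k1.1
    · exact k2.1
  · intro l hl ε hε
    obtain ⟨B1, hB1⟩ := k1.2 l hl (ε / 2) (by positivity)
    obtain ⟨B2, hB2⟩ := k2.2 l hl (ε / 2) (by positivity)
    refine ⟨max B1 B2, ?_⟩
    have hlog : Tendsto (fun n : ℕ => Real.log (n : ℝ)) atTop atTop :=
      Real.tendsto_log_atTop.comp tendsto_natCast_atTop_atTop
    filter_upwards [hB1, hB2, hlog.eventually_ge_atTop 1] with X hX1 hX2 hX3 Y hXY hYX A hA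
    have hD : ∀ B, B ≤ max B1 B2 → Real.log X ^ B ≤ Real.log X ^ (max B1 B2) := fun B hB =>
      pow_le_pow_right₀ hX3 hB
    have h3 := N_union (Outside A l (Real.log X ^ (max B1 B2)) X (X + Y))
      (Outside (A ∩ RS 2 r) l (Real.log X ^ B1) X (X + Y))
      (Outside (A ∩ RS 4 r) l (Real.log X ^ B2) X (X + Y)) X (X + Y) (by
        rintro m ⟨hmA, hmO⟩
        rcases hA hmA with h | h
        · exact Or.inl ⟨⟨hmA, h⟩, fun hin => hmO (hin.mono Set.inter_subset_left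
            (hD _ (le_max_left _ _)))⟩
        · exact Or.inr ⟨⟨hmA, h⟩, fun hin => hmO (hin.mono Set.inter_subset_left
            (hD _ (le_max_right _ _)))⟩)
    have h4 := hX1 Y hXY hYX (A ∩ RS 2 r) Set.inter_subset_right
    have h5 := hX2 Y hXY hYX (A ∩ RS 4 r) Set.inter_subset_right
    have h6 : (N (Outside A l (Real.log X ^ (max B1 B2)) X (X + Y)) X (X + Y) : ℝ) ≤
        N (Outside (A ∩ RS 2 r) l (Real.log X ^ B1) X (X + Y)) X (X + Y) +
        N (Outside (A ∩ RS 4 r) l (Real.log X ^ B2) X (X + Y)) X (X + Y) := by exact_mod_cast h3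
    calc (N (Outside A l (Real.log X ^ (max B1 B2)) X (X + Y)) X (X + Y) : ℝ) ≤
          ε / 2 * Y / Real.log X ^ 3 + ε / 2 * Y / Real.log X ^ 3 := by linarith
      _ = ε * Y / Real.log X ^ 3 := by ring
  · rintro s (rfl | rfl)
    · exact Pool.Agent.Y677.RSZ.exists_prog (fun _ hm => hm.1) 3 k1.1 k1.2
    · exact Pool.Agent.Y677.RSZ.exists_prog (fun _ hm => hm.1) 3 k2.1 k2.2

end Pool.Agent.Results.MP_dddec0_nt.NarrowProgressions
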