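import Pool.Agent.Y816.PD.Tup

set_option autoImplicit false

/-!
# Triplets of almost primes at integers with restricted digits

The integers `n < b ^ K` whose `i`-th digit in base `b` belongs to an arbitrary set `A i` (for all `i < K`)
are considered, the product of the `|A i|` being at least `exp (- c K) b ^ K`.
-/

namespace Pool.Agent.Results.MP_dddec0_nt.RestrictedDigits

open Finset Filter
open Pool.Agent.Y816.PD (ND NA)

/-- All prime factors of the numbers `n + h`, `h ∈ H`, are larger than `n ^ (1 / r)`. -/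
def R (H : Finset ℕ) (r : ℕ) : Set ℕ :=
  {n | ∀ h ∈ H, ∀ p : ℕ, p.Prime → p ∣ n + h → (n : ℝ) ^ (1 / (r : ℝ)) < (p : ℝ)}

/-- The `n` of `R H r` for which all `n + h`, `h ∈ H`, have at most `r` prime factors. -/
def P (H : Finset ℕ) (r : ℕ) : Set ℕ :=
  {n | n ∈ R H r ∧ ∀ h ∈ H, (n + h).primeFactorsList.length ≤ r}

/-- **Triplets of almost primes with restricted digits.** -/
theorem result (H : Finset ℕ) (hH : H = {0, 2, 6} ∨ H = {0, 4, 6}) :
    ∃ c : ℝ, 0 < c ∧ ∃ r₀ : ℕ, 2 ≤ r₀ ∧ ∀ r : ℕ, r₀ ≤ r →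
      (∀ n : ℕ, (∀ h ∈ H, (n + h).Prime) → n ∈ R H r) ∧
      ∀ b : ℕ, 2 ≤ b → ∃ κ C : ℝ, 0 < κ ∧ 0 < C ∧ ∀ᶠ K : ℕ in atTop, ∀ A : ℕ → Finset ℕ,
        (∀ i < K, A i ⊆ range b) → (b : ℝ) ^ K ≤ Real.exp (c * K) * NA K A →
        ((∃ d ∈ A 0, ∀ h ∈ H, (d + h).Coprime b) → κ * NA K A / (K : ℝ) ^ 3 ≤ ND b K A (P H r)) ∧
        (ND b K A (R H r) : ℝ) ≤ C * NA K A / (K : ℝ) ^ 3 := by
  have hk : H.card = 3 := by
    rcases hH with rfl | rfl <;> decide
  have h0 : 0 ∈ H := by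
    rcases hH with rfl | rfl <;> decide
  have hadm : ∀ p : ℕ, p.Prime → ∃ m : ℕ, ∀ h ∈ H, ¬ p ∣ m + h := by
    rcases hH with rfl | rfl
    · exact Pool.Agent.Y816.PD.adm2 _ 5 17 (by decide) (by decide) (by decide)
    · exact Pool.Agent.Y816.PD.adm2 _ 7 37 (by decide) (by decide) (by decide)
  exact Pool.Agent.Y816.PD.tuple_final H h0 hadm 3 hk

end Pool.Agent.Results.MP_dddec0_nt.RestrictedDigits
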