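import Pool.Agent.Y879.PR.HLd

set_option autoImplicit false

/-!
Almost prime triplets: the numbers `n` such that `n`, `n + 6` and one of `n + 2`, `n + 4` have no prime factor up to
`N ^ (1 / r)`. In EVERY interval `(A, A + L]` with `L ≥ N ^ θ` their number is asymptotically
`2 D (r e ^ (-γ) / log N) ^ 3 L` with the Hardy-Littlewood constant `D` of the triples, and the gaps in each of the
four residue classes modulo `30` in which they lie follow the exponential (Gamma) laws.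
-/

namespace Pool.Agent.Results.MP_dddec0_nt.TripletsShortIntervals

open Finset Filter
open Pool.Agent.Y879.PR Pool.Agent.W123.RP Pool.Agent.H373R2.T7

/-- `m` has no prime factor `p ≤ N ^ (1 / r)` -/
def Rough (N r m : ℕ) : Prop := ∀ p : ℕ, p.Prime → (p : ℝ) ≤ (N : ℝ) ^ (1 / (r : ℝ)) → ¬ p ∣ m

/-- almost prime triplet -/
def Trip (N r n : ℕ) : Prop :=
  Rough N r n ∧ Rough N r (n + 6) ∧ (Rough N r (n + 2) ∨ Rough N r (n + 4))

/-- the smallest members of the triplets in the four residue classes modulo `30` -/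
def cl : Fin 4 → ℕ := ![7, 11, 13, 17]

/-- the density of the triplets in one of the four classes: the product of `1 - 3 / p` over the primes
`5 < p ≤ N ^ (1 / r)` -/
noncomputable def V (N r : ℕ) : ℝ :=
  ∏ p ∈ (Icc 1 ⌊(N : ℝ) ^ (1 / (r : ℝ))⌋₊).filter Nat.Prime, (1 - ((if p ∣ 30 then 0 else 3 : ℕ) : ℝ) / p)

open Classical in
/-- the number of the triplets in `(A, A + L]` -/
noncomputable def Num (N r A L : ℕ) : ℕ := ((Ioc A (A + L)).filter (Trip N r)).card

open Classical in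
/-- the number of the `x` in `(u, u + Y]` such that `30 x + c` is a triplet and fewer than `j` of the numbers
`30 y + c`, `x - T ≤ y < x`, are triplets -/
noncomputable def Near (N r c j T u Y : ℕ) : ℕ :=
  ((Ioc u (u + Y)).filter (fun x => Trip N r (30 * x + c) ∧
    ((Ico (x - T) x).filter (fun y => Trip N r (30 * y + c))).card < j)).card

/-- the four tuples -/
def B : Fin 4 → Fin 3 → ℕ := ![![7, 11, 13], ![11, 13, 17], ![13, 17, 19], ![17, 19, 23]]

lemma split3 (i : Fin 3) : i = 0 ∨ i = 1 ∨ i = 2 := by fin_cases i <;> simp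

lemma split4 (i : Fin 4) : i = 0 ∨ i = 1 ∨ i = 2 ∨ i = 3 := by fin_cases i <;> simp

lemma tup (i : Fin 4) : Tup 30 (B i) := by
  fin_cases i
  · exact ⟨sq30, by decide, fun p hp h => pr30 p hp (by omega), by decide, by decide, by norm_num⟩
  · exact ⟨sq30, by decide, fun p hp h => pr30 p hp (by omega), by decide, by decide, by norm_num⟩
  · exact ⟨sq30, by decide, fun p hp h => pr30 p hp (by omega), by decide, by decide, by norm_num⟩
  · exact ⟨sq30, by decide, fun p hp h => pr30 p hp (by omega), by decide, by decide, by norm_num⟩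

lemma V_eq (i : Fin 4) (N r : ℕ) :
    V N r = Vq (Pool.Agent.W123.RU.Poly.Q (tf 30 (B i))) ⌊(N : ℝ) ^ (1 / (r : ℝ))⌋₊ := by
  unfold V Vq
  apply Finset.prod_congr rfl
  intro p hp
  have hpp := (mem_pz.1 hp).2
  by_cases hpM : p ∣ 30
  · rw [if_pos hpM, (tup i).nu_zero p hpp hpM]
  · rw [if_neg hpM, (tup i).nu_eq p hpp hpM]
    intro a b hab
    apply dif30 p hpp hpM
    revert i a b
    decide

lemma key3 : ∀ s ∈ Finset.range 30, (¬ 2 ∣ s ∧ ¬ 3 ∣ s ∧ ¬ 5 ∣ s ∧ ¬ 5 ∣ s + 6 ∧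
    ((¬ 3 ∣ s + 2 ∧ ¬ 5 ∣ s + 2) ∨ (¬ 3 ∣ s + 4 ∧ ¬ 5 ∣ s + 4))) →
    s = 7 ∨ s = 11 ∨ s = 13 ∨ s = 17 := by decide

lemma r30 (N r : ℕ) (hz : (5 : ℝ) ≤ (N : ℝ) ^ (1 / (r : ℝ))) (m : ℕ) (h : Rough N r m) :
    ¬ 2 ∣ m ∧ ¬ 3 ∣ m ∧ ¬ 5 ∣ m :=
  ⟨h 2 Nat.prime_two (by rw [Nat.cast_ofNat]; linarith), h 3 Nat.prime_three (by rw [Nat.cast_ofNat]; linarith),
    h 5 Nat.prime_five (by rw [Nat.cast_ofNat]; linarith)⟩

/-- the classes modulo `30` -/
lemma trip_mod (N r : ℕ) (hz : (5 : ℝ) ≤ (N : ℝ) ^ (1 / (r : ℝ))) (n : ℕ) (h : Trip N r n) :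
    n % 30 = 7 ∨ n % 30 = 11 ∨ n % 30 = 13 ∨ n % 30 = 17 := by
  obtain ⟨h1, h2, h3⟩ := h
  have e : n = 30 * (n / 30) + n % 30 := (Nat.div_add_mod n 30).symm
  obtain ⟨a1, a2, a3⟩ := r30 N r hz n h1
  obtain ⟨b1, b2, b3⟩ := r30 N r hz _ h2
  apply key3 (n % 30) (Finset.mem_range.2 (Nat.mod_lt _ (by norm_num)))
  refine ⟨by omega, by omega, by omega, by omega, ?_⟩
  rcases h3 with h3 | h3
  · obtain ⟨c1, c2, c3⟩ := r30 N r hz _ h3
    left
    exact ⟨by omega, by omega⟩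
  · obtain ⟨c1, c2, c3⟩ := r30 N r hz _ h3
    right
    exact ⟨by omega, by omega⟩

lemma trip_iff (N r : ℕ) (hz : (5 : ℝ) ≤ (N : ℝ) ^ (1 / (r : ℝ))) (i : Fin 4) (x : ℕ) :
    Trip N r (30 * x + cl i) ↔ TG 30 (B i) N r x := by
  have k3 : ∀ m : ℕ, 3 ∣ m → ¬ Rough N r m := fun m hm h => (r30 N r hz m h).2.1 hm
  unfold Trip TG
  rcases split4 i with rfl | rfl | rfl | rfl
  · constructor
    · rintro ⟨h1, h2, h3 | h3⟩
      · exact absurd h3 (k3 _ (by change 3 ∣ 30 * x + 7 + 2; omega))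
      · intro p hp hpz j
        rcases split3 j with rfl | rfl | rfl
        · exact h1 p hp hpz
        · exact h3 p hp hpz
        · exact h2 p hp hpz
    · intro h
      exact ⟨fun p hp hpz => h p hp hpz 0, fun p hp hpz => h p hp hpz 2, Or.inr fun p hp hpz => h p hp hpz 1⟩
  · constructor
    · rintro ⟨h1, h2, h3 | h3⟩
      · intro p hp hpz j
        rcases split3 j with rfl | rfl | rfl
        · exact h1 p hp hpz
        · exact h3 p hp hpz
        · exact h2 p hp hpz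
      · exact absurd h3 (k3 _ (by change 3 ∣ 30 * x + 11 + 4; omega))
    · intro h
      exact ⟨fun p hp hpz => h p hp hpz 0, fun p hp hpz => h p hp hpz 2, Or.inl fun p hp hpz => h p hp hpz 1⟩
  · constructor
    · rintro ⟨h1, h2, h3 | h3⟩
      · exact absurd h3 (k3 _ (by change 3 ∣ 30 * x + 13 + 2; omega))
      · intro p hp hpz j
        rcases split3 j with rfl | rfl | rfl
        · exact h1 p hp hpz
        · exact h3 p hp hpz
        · exact h2 p hp hpz
    · intro h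
      exact ⟨fun p hp hpz => h p hp hpz 0, fun p hp hpz => h p hp hpz 2, Or.inr fun p hp hpz => h p hp hpz 1⟩
  · constructor
    · rintro ⟨h1, h2, h3 | h3⟩
      · intro p hp hpz j
        rcases split3 j with rfl | rfl | rfl
        · exact h1 p hp hpz
        · exact h3 p hp hpz
        · exact h2 p hp hpz
      · exact absurd h3 (k3 _ (by change 3 ∣ 30 * x + 17 + 4; omega))
    · intro h
      exact ⟨fun p hp hpz => h p hp hpz 0, fun p hp hpz => h p hp hpz 2, Or.inl fun p hp hpz => h p hp hpz 1⟩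

lemma near_eq (N r : ℕ) (hz : (5 : ℝ) ≤ (N : ℝ) ^ (1 / (r : ℝ))) (i : Fin 4) (j T u Y : ℕ) :
    Near N r (cl i) j T u Y = TNear 30 (B i) N r j T u Y := by
  classical
  have e : (fun y => Trip N r (30 * y + cl i)) = TG 30 (B i) N r :=
    funext fun y => propext (trip_iff N r hz i y)
  unfold Near TNear
  rw [← e]

/-- the number of triplets is the sum over the classes -/
lemma num_eq (N r : ℕ) (hz : (5 : ℝ) ≤ (N : ℝ) ^ (1 / (r : ℝ))) (A L : ℕ) (hA : 30 ≤ A) :
    Num N r A L = ∑ i : Fin 4, Near N r (cl i) 1 0 ((A - cl i) / 30) ((A + L - cl i) / 30 - (A - cl i) / 30) := by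
  classical
  unfold Num
  have hmap : ∀ n ∈ (Ioc A (A + L)).filter (Trip N r), n % 30 ∈ ({7, 11, 13, 17} : Finset ℕ) := by
    intro n hn
    have h := trip_mod N r hz n (Finset.mem_filter.1 hn).2
    simp only [Finset.mem_insert, Finset.mem_singleton]
    exact h
  rw [Finset.card_eq_sum_card_fiberwise (f := fun n => n % 30) (t := ({7, 11, 13, 17} : Finset ℕ)) hmap]
  have hsum : ∀ F : ℕ → ℕ, ∑ c ∈ ({7, 11, 13, 17} : Finset ℕ), F c = ∑ i : Fin 4, F (cl i) := by
    intro F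
    rw [Fin.sum_univ_four, Finset.sum_insert (by decide), Finset.sum_insert (by decide),
      Finset.sum_insert (by decide), Finset.sum_singleton]
    show F 7 + (F 11 + (F 13 + F 17)) = F 7 + F 11 + F 13 + F 17
    ring
  rw [hsum]
  apply Finset.sum_congr rfl
  intro i _
  have hc : 7 ≤ cl i ∧ cl i ≤ 17 := by fin_cases i <;> simp [cl]
  obtain ⟨c, hcc⟩ : ∃ c, c = cl i := ⟨_, rfl⟩
  rw [← hcc] at hc ⊢
  have hle : (A - c) / 30 ≤ (A + L - c) / 30 := Nat.div_le_div_right (by omega)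
  unfold Near
  rw [Nat.add_sub_cancel' hle]
  symm
  have hinj : Function.Injective (fun x => 30 * x + c) := by
    intro a b hab
    simp only at hab
    omega
  rw [← Finset.card_image_of_injective _ hinj]
  congr 1
  ext n
  simp only [Finset.mem_image, Finset.mem_filter, Finset.mem_Ioc, Nat.sub_zero, Finset.Ico_self,
    Finset.filter_empty, Finset.card_empty]
  constructor
  · rintro ⟨x, ⟨⟨h1, h2⟩, h3, _⟩, rfl⟩
    exact ⟨⟨⟨by omega, by omega⟩, h3⟩, by omega⟩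
  · rintro ⟨⟨⟨h1, h2⟩, h3⟩, h4⟩
    refine ⟨n / 30, ⟨⟨by omega, by omega⟩, ?_, by norm_num⟩, by omega⟩
    rwa [show 30 * (n / 30) + c = n by omega]

/-- **Almost prime triplets in all short intervals.** Let `D` be the Hardy-Littlewood constant of the triples.
For all `θ > 0`, `0 < ε ≤ 1`, `x₀` and `k₀` there is `r₀` such that for every `r ≥ r₀` and all large `N`: (1) if
`n > N ^ (1 / r)`, `n` and `n + 6` are prime and `n + 2` or `n + 4` is prime, then `n` is a triplet; (2) if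
`n ≤ N` and `n + s` is free of prime factors up to `N ^ (1 / r)`, `s ≤ 6`, then it has at most `r` prime factors;
(3) for ALL `A ≥ 30` and `L ≥ N ^ θ` the number of triplets in `(A, A + L]` is
`(1 + η) 2 D (r e ^ (-γ) / log N) ^ 3 L`, `|η| ≤ ε`; (4) for `c = 7, 11, 13, 17`, all `u`, `Y ≥ N ^ θ`, `T` and
`j ≤ k₀` (and all `j` if `T V ≤ x₀`), the number of the `x` in `(u, u + Y]` such that `30 x + c` is a triplet
and fewer than `j` of the numbers `30 y + c`, `x - T ≤ y < x`, are triplets is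
`Y V (e ^ (-TV) ∑ i < j, (TV) ^ i / i! + η)`, `|η| ≤ ε`. -/
theorem result : ∃ D : ℝ, 0 < D ∧
    Tendsto (fun N : ℕ => (9 / 2 : ℝ) * ∏ p ∈ (Finset.range N).filter (fun p => p.Prime ∧ 3 < p),
      ((p : ℝ) ^ 2 * ((p : ℝ) - 3) / ((p : ℝ) - 1) ^ 3)) atTop (nhds D) ∧
    ∀ (θ x₀ ε : ℝ) (k₀ : ℕ), 0 < θ → 0 < ε → ε ≤ 1 →
    ∃ r₀ : ℕ, ∀ r : ℕ, r₀ ≤ r → ∃ N₀ : ℕ, ∀ N : ℕ, N₀ ≤ N →
      (∀ n : ℕ, (N : ℝ) ^ (1 / (r : ℝ)) < n → n.Prime → (n + 6).Prime → ((n + 2).Prime ∨ (n + 4).Prime) →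
        Trip N r n) ∧
      (∀ n s : ℕ, n ≤ N → s ≤ 6 → Rough N r (n + s) → (n + s).primeFactorsList.length ≤ r) ∧
      (∀ A L : ℕ, 30 ≤ A → (N : ℝ) ^ θ ≤ L →
        |(Num N r A L : ℝ) * Real.log N ^ 3 - 2 * D * (r * Real.exp (-Real.eulerMascheroniConstant)) ^ 3 * L| ≤
          ε * (2 * D * (r * Real.exp (-Real.eulerMascheroniConstant)) ^ 3 * L)) ∧
      ∀ c ∈ ({7, 11, 13, 17} : Finset ℕ), ∀ u Y j T : ℕ, (N : ℝ) ^ θ ≤ Y → (j ≤ k₀ ∨ T * V N r ≤ x₀) →
        |(Near N r c j T u Y : ℝ) - Y * V N r *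
            ∑ i ∈ range j, Real.exp (-(T * V N r)) * (T * V N r) ^ i / i.factorial| ≤
          ε * (Y * V N r) := by
  obtain ⟨S, hS0, hS⟩ := HF_lim 3 (Or.inl rfl)
  refine ⟨9 / 2 * S, by positivity, ?_, ?_⟩
  · refine (hS.const_mul (9 / 2)).congr ?_
    intro N
    unfold HF
    congr 1
    apply Finset.prod_congr rfl
    intro p hp
    simp only [Finset.mem_filter] at hp
    have h3 : (3 : ℝ) < p := by exact_mod_cast hp.2.2
    unfold hf
    rw [Nat.cast_ofNat]
    have h0 : (p : ℝ) ≠ 0 := by positivity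
    have h1 : (p : ℝ) - 1 ≠ 0 := by linarith
    field_simp
  intro θ x₀ ε k₀ hθ hε hε1
  choose r1 hr12 h1 using fun i : Fin 4 => tup_gap (tup i) (θ / 2) (ε / 16) x₀ (max k₀ 1) (by positivity)
    (by positivity)
  refine ⟨∑ i, r1 i, ?_⟩
  intro r hr
  have hri : ∀ i, r1 i ≤ r := fun i =>
    (Finset.single_le_sum (f := r1) (fun _ _ => Nat.zero_le _) (mem_univ i)).trans hr
  have hr2 : 2 ≤ r := (hr12 0).trans (hri 0)
  have hrr : (2 : ℝ) ≤ r := by exact_mod_cast hr2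
  choose v hv hev using fun i => h1 i r (hri i)
  obtain ⟨c, hc⟩ : ∃ c, c = (r : ℝ) * Real.exp (-Real.eulerMascheroniConstant) := ⟨_, rfl⟩
  have hc0 : 0 < c := by
    rw [hc]
    have := Real.exp_pos (-Real.eulerMascheroniConstant)
    positivity
  have hlim := PV_lim 3 (Or.inl rfl) S hS r hr2
  rw [← hc] at hlim
  have hW0 : 0 < 3 ^ 3 * (5 / (5 - ((3 : ℕ) : ℝ))) * S * c ^ 3 := by
    norm_num
    positivity
  have hev2 := (Metric.tendsto_nhds.1 hlim) (ε / 16 * (3 ^ 3 * (5 / (5 - ((3 : ℕ) : ℝ))) * S * c ^ 3))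
    (by positivity)
  have hbig : ∀ᶠ N : ℕ in atTop, 1000 / ε ≤ (N : ℝ) ^ (θ / 2) :=
    ((tendsto_rpow_atTop (by positivity)).comp tendsto_natCast_atTop_atTop).eventually_ge_atTop _
  obtain ⟨N0, hN0⟩ := eventually_atTop.1 ((Filter.eventually_all.2 hev).and (hev2.and hbig))
  refine ⟨max N0 100, ?_⟩
  intro N hN
  obtain ⟨g1, g4, g5⟩ := hN0 N ((le_max_left _ _).trans hN)
  have hN100 : 100 ≤ N := (le_max_right _ _).trans hN
  have hNr : (100 : ℝ) ≤ N := by exact_mod_cast hN100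
  have hNp : (0 : ℝ) < N := by linarith
  have g2 := (g1 0).2.1
  have hz5 : (5 : ℝ) ≤ (N : ℝ) ^ (1 / (r : ℝ)) := by linarith
  have hpow : ((N : ℝ) ^ (1 / (r : ℝ))) ^ r = N := by
    rw [← Real.rpow_natCast, ← Real.rpow_mul (by linarith), one_div, inv_mul_cancel₀ (by linarith),
      Real.rpow_one]
  have hlog : 0 < Real.log N := Real.log_pos (by linarith)
  have hVpos : 0 < V N r := by
    rw [V_eq 0]
    refine lt_of_lt_of_le ?_ (g1 0).1
    have := hv 0
    positivity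
  have hθ2 : (N : ℝ) ^ (θ / 2) ≤ (N : ℝ) ^ θ :=
    Real.rpow_le_rpow_of_exponent_le (by linarith) (by linarith)
  have hlaw : ∀ (i : Fin 4) (u Y j T : ℕ), (N : ℝ) ^ (θ / 2) ≤ Y → (j ≤ max k₀ 1 ∨ T * V N r ≤ x₀) →
      |(Near N r (cl i) j T u Y : ℝ) - Y * V N r *
          ∑ i ∈ range j, Real.exp (-(T * V N r)) * (T * V N r) ^ i / i.factorial| ≤
        ε / 16 * (Y * V N r) := by
    intro i u Y j T hY hj
    rw [V_eq i] at hj ⊢
    rw [near_eq N r hz5]
    exact (g1 i).2.2 u Y j T hY hj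
  refine ⟨?_, ?_, ?_, ?_⟩
  · intro n hn p0 p6 p24
    have hr : ∀ m : ℕ, m.Prime → n ≤ m → Rough N r m := by
      intro m hm hnm q hq hqz hd
      have h5 := (Nat.prime_dvd_prime_iff_eq hq hm).1 hd
      rw [h5] at hqz
      have : (n : ℝ) ≤ m := by exact_mod_cast hnm
      linarith
    refine ⟨hr n p0 le_rfl, hr _ p6 (by omega), ?_⟩
    rcases p24 with h | h
    · exact Or.inl (hr _ h (by omega))
    · exact Or.inr (hr _ h (by omega))
  · intro n s hn hs hg
    -- `n + s < z ^ (r + 1)`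
    have hlt : ((n + s : ℕ) : ℝ) < ((N : ℝ) ^ (1 / (r : ℝ))) ^ (r + 1) := by
      rw [pow_succ, hpow]
      push_cast
      have hn' : (n : ℝ) ≤ N := by exact_mod_cast hn
      have hs' : (s : ℝ) ≤ 6 := by exact_mod_cast hs
      have h4 : (N : ℝ) * 5 ≤ N * (N : ℝ) ^ (1 / (r : ℝ)) := mul_le_mul_of_nonneg_left hz5 hNp.le
      linarith
    by_contra hcon
    rw [not_le] at hcon
    have h0 : n + s ≠ 0 := by
      intro h0
      rw [h0] at hcon
      simp at hcon
    have hprod : ∀ l : List ℕ, (∀ p ∈ l, (N : ℝ) ^ (1 / (r : ℝ)) ≤ p) →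
        ((N : ℝ) ^ (1 / (r : ℝ))) ^ l.length ≤ ((l.prod : ℕ) : ℝ) := by
      intro l
      induction l with
      | nil => intro _; simp
      | cons a t ih =>
        intro hl
        rw [List.length_cons, pow_succ, List.prod_cons, Nat.cast_mul, mul_comm]
        exact mul_le_mul (hl a (by simp)) (ih (fun p hp => hl p (by simp [hp]))) (by positivity)
          (Nat.cast_nonneg _)
    have h6 := hprod (n + s).primeFactorsList (by
      intro p hp
      by_contra hc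
      rw [not_le] at hc
      exact hg p (Nat.prime_of_mem_primeFactorsList hp) hc.le (Nat.dvd_of_mem_primeFactorsList hp))
    rw [Nat.prod_primeFactorsList h0] at h6
    have h7 : ((N : ℝ) ^ (1 / (r : ℝ))) ^ (r + 1) ≤
        ((N : ℝ) ^ (1 / (r : ℝ))) ^ (n + s).primeFactorsList.length :=
      pow_le_pow_right₀ (by linarith) hcon
    linarith
  · intro A L hA hL
    rw [← hc, num_eq N r hz5 A L hA]
    have hLbig : 1000 / ε * (N : ℝ) ^ (θ / 2) ≤ L := by
      refine le_trans ?_ hL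
      calc 1000 / ε * (N : ℝ) ^ (θ / 2) ≤ (N : ℝ) ^ (θ / 2) * (N : ℝ) ^ (θ / 2) :=
            mul_le_mul_of_nonneg_right g5 (by positivity)
        _ = (N : ℝ) ^ θ := by
          rw [← Real.rpow_add hNp]
          congr 1
          ring
    have hN1 : 1 ≤ (N : ℝ) ^ (θ / 2) := Real.one_le_rpow (by linarith) (by positivity)
    have hLε : 1000 * (N : ℝ) ^ (θ / 2) ≤ ε * L := by
      have h5 : ε * (1000 / ε * (N : ℝ) ^ (θ / 2)) ≤ ε * L := mul_le_mul_of_nonneg_left hLbig hε.le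
      have e : ε * (1000 / ε * (N : ℝ) ^ (θ / 2)) = 1000 * (N : ℝ) ^ (θ / 2) := by field_simp
      linarith
    have hL0 : (0 : ℝ) ≤ L := Nat.cast_nonneg _
    have hεL : ε * L ≤ L := by
      calc ε * (L : ℝ) ≤ 1 * L := mul_le_mul_of_nonneg_right hε1 hL0
        _ = L := one_mul _
    rw [Real.dist_eq] at g4
    have hVP : V N r = PV 30 3 N r := rfl
    rw [← hVP] at g4
    have hcls : ∀ i : Fin 4, |(Near N r (cl i) 1 0 ((A - cl i) / 30) ((A + L - cl i) / 30 - (A - cl i) / 30) : ℝ) *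
        Real.log N ^ 3 - 3 ^ 3 * (5 / (5 - ((3 : ℕ) : ℝ))) * S * c ^ 3 * (L / 30)| ≤
        ε * (3 ^ 3 * (5 / (5 - ((3 : ℕ) : ℝ))) * S * c ^ 3 * (L / 30)) := by
      intro i
      have hci : 7 ≤ cl i ∧ cl i ≤ 17 := by fin_cases i <;> simp [cl]
      obtain ⟨Y, hY⟩ : ∃ Y, Y = (A + L - cl i) / 30 - (A - cl i) / 30 := ⟨_, rfl⟩
      rw [← hY]
      have y1 : 30 * Y ≤ L + 30 := by omega
      have y2 : L ≤ 30 * Y + 30 := by omega
      have y1r : 30 * (Y : ℝ) ≤ L + 30 := by exact_mod_cast y1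
      have y2r : (L : ℝ) ≤ 30 * Y + 30 := by exact_mod_cast y2
      have hYd : |(Y : ℝ) - L / 30| ≤ ε / 4 * (L / 30) := by
        rw [abs_le]
        constructor <;> linarith
      have hYθ : (N : ℝ) ^ (θ / 2) ≤ Y := by linarith
      have h5 := hlaw i ((A - cl i) / 30) Y 1 0 hYθ (Or.inl (le_max_right _ _))
      simp only [Nat.cast_zero, zero_mul, neg_zero, Real.exp_zero, Finset.sum_range_one, pow_zero, mul_one,
        Nat.factorial_zero, Nat.cast_one, div_one] at h5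
      obtain ⟨G, hG⟩ : ∃ G : ℝ, G = Near N r (cl i) 1 0 ((A - cl i) / 30) Y := ⟨_, rfl⟩
      rw [← hG] at h5 ⊢
      have s1 : |G * Real.log N ^ 3 - Y * (V N r * Real.log N ^ 3)| ≤
          ε / 4 / 4 * (Y * (V N r * Real.log N ^ 3)) := by
        have e1 : G * Real.log N ^ 3 - Y * (V N r * Real.log N ^ 3) = (G - Y * V N r) * Real.log N ^ 3 := by ring
        have e2 : ε / 4 / 4 * (Y * (V N r * Real.log N ^ 3)) = (ε / 16 * (Y * V N r)) * Real.log N ^ 3 := by ring
        rw [e1, e2, abs_mul, abs_of_pos (by positivity : 0 < Real.log N ^ 3)]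
        exact mul_le_mul_of_nonneg_right h5 (by positivity)
      have s2 := two_step _ (Y : ℝ) _ (3 ^ 3 * (5 / (5 - ((3 : ℕ) : ℝ))) * S * c ^ 3) (ε / 4) (by positivity)
        (by linarith) (Nat.cast_nonneg _) hW0.le s1 (g4.le.trans (le_of_eq (by ring)))
      rw [mul_comm (Y : ℝ)] at s2
      exact two_step _ _ (Y : ℝ) ((L : ℝ) / 30) ε hε hε1 hW0.le (by positivity) s2 hYd
    push_cast
    rw [Finset.sum_mul]
    have h6 := sum_abs (Finset.univ : Finset (Fin 4))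
      (fun i => (Near N r (cl i) 1 0 ((A - cl i) / 30) ((A + L - cl i) / 30 - (A - cl i) / 30) : ℝ) *
        Real.log N ^ 3) (fun _ => 3 ^ 3 * (5 / (5 - ((3 : ℕ) : ℝ))) * S * c ^ 3 * (L / 30)) ε
      (fun i _ => hcls i)
    have e3 : ∑ _i : Fin 4, 3 ^ 3 * (5 / (5 - ((3 : ℕ) : ℝ))) * S * c ^ 3 * ((L : ℝ) / 30) =
        2 * (9 / 2 * S) * c ^ 3 * L := by
      rw [Finset.sum_const, Finset.card_univ, Fintype.card_fin, nsmul_eq_mul]
      norm_num
      ring
    rw [e3] at h6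
    exact h6
  · intro c' hc' u Y j T hY hj
    have hex : ∃ i : Fin 4, cl i = c' := by
      simp only [Finset.mem_insert, Finset.mem_singleton] at hc'
      rcases hc' with rfl | rfl | rfl | rfl
      · exact ⟨0, rfl⟩
      · exact ⟨1, rfl⟩
      · exact ⟨2, rfl⟩
      · exact ⟨3, rfl⟩
    obtain ⟨i, rfl⟩ := hex
    refine (hlaw i u Y j T (hθ2.trans hY) ?_).trans ?_
    · rcases hj with h5 | h5
      · exact Or.inl (h5.trans (le_max_left _ _))
      · exact Or.inr h5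
    · exact mul_le_mul_of_nonneg_right (by linarith) (by positivity)

end Pool.Agent.Results.MP_dddec0_nt.TripletsShortIntervals
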